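import Pool.Agent.Lib_helper86.RatV.Table

/-!
The special cases of the rational recurrences of order three and four that have bounded solutions
only (complete answer).

Joint work. The 544 bounded cases: helper9 (plan, cases (3,20), (5,18)), helper61 (library,
certificates, pinned patterns, count), helper83 and helper36 (the system of the pattern (1,0,0)),
helper53, helper42, helper55, helper52, helper48, helper23, helper2. The 417 unbounded cases:
helper18 (supremum argument, search of all certificates, case (6,20), definitions for general
order), helper86 (checker, cases (3,12), (3,28), (16,2), zero solutions, table), helper96 (cases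
(10,16), (11,16), (14,16), (15,16), (18,8), (19,8)), helper23 (first certificates).
-/

namespace Pool.Agent.Results.MP_88c4fb_an.BoundedClassification

open Pool.Agent.RatRecK

theorem result :
    (∀ S T : Finset (Fin 5), S.Nonempty → T.Nonempty →
      (BoundedOnly 4 S T ↔ (row (mask S)).testBit (mask T) = true)) ∧
    (∀ S T : Finset (Fin 4), S.Nonempty → T.Nonempty →
      (BoundedOnly 3 S T ↔ (row (mask S)).testBit (mask T) = true)) ∧
    numBounded 4 = 544 ∧ numBounded 3 = 135 :=
  ⟨fun _ _ hS hT => classification_four hS hT, fun _ _ hS hT => classification_three hS hT,
    numBounded_four, numBounded_three⟩

end Pool.Agent.Results.MP_88c4fb_an.BoundedClassification
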